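import Pool.Agent.U1.VF.Tensor
import Pool.Agent.Helper186.Flow

/-! Smooth dependence of flows on parameters which enter the field linearly. -/

set_option autoImplicit false

open scoped Manifold ContDiff Topology Bundle
open Set Filter

universe u

namespace Pool.Agent.U882.MF

open Pool.Agent.U1.VF

variable {n : ℕ} {N : Type u} [TopologicalSpace N]
  [ChartedSpace (EuclideanSpace ℝ (Fin n)) N] [IsManifold (𝓡 n) ∞ N]

theorem lift_field (P : Type) [NormedAddCommGroup P] [NormedSpace ℝ P] {W : Field n N}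
    (hW : IsC ⊤ W) :
    ContMDiff (𝓘(ℝ, P).prod (𝓡 n)) (𝓘(ℝ, P).prod (𝓡 n)).tangent ∞
      (fun q : P × N => (⟨q, ((0 : P), W q.2)⟩ :
        TangentBundle (𝓘(ℝ, P).prod (𝓡 n)) (P × N))) := by
  have i1 : IsManifold (𝓡 n) 1 N := IsManifold.of_le (n := ∞) (by simp)
  have h1 : ContMDiff (𝓘(ℝ, P).prod (𝓡 n)) 𝓘(ℝ, P).tangent ∞
      (fun q : P × N => (⟨q.1, 0⟩ : TangentBundle 𝓘(ℝ, P) P)) :=
    (Bundle.contMDiff_zeroSection ℝ (TangentSpace 𝓘(ℝ, P) : P → Type _)).comp contMDiff_fst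
  have h2 : ContMDiff (𝓘(ℝ, P).prod (𝓡 n)) (𝓡 n).tangent ∞
      (fun q : P × N => (⟨q.2, W q.2⟩ : TangentBundle (𝓡 n) N)) := by
    have h3 : ContMDiff (𝓡 n) (𝓡 n).tangent ∞
        (fun x => (⟨x, W x⟩ : TangentBundle (𝓡 n) N)) := hW
    exact h3.comp contMDiff_snd
  exact contMDiff_equivTangentBundleProd_symm.comp (h1.prodMk h2)

variable {ι : Type} [Fintype ι]

theorem par_field {X : Field n N} {Z : ι → Field n N} (hX : IsC ⊤ X) (hZ : ∀ j, IsC ⊤ (Z j)) :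
    ContMDiff (𝓘(ℝ, ι → ℝ).prod (𝓡 n)) (𝓘(ℝ, ι → ℝ).prod (𝓡 n)).tangent ∞
      (fun q : (ι → ℝ) × N => (⟨q, ((0 : ι → ℝ), X q.2 + ∑ j, q.1 j • Z j q.2)⟩ :
        TangentBundle (𝓘(ℝ, ι → ℝ).prod (𝓡 n)) ((ι → ℝ) × N))) := by
  have h1 := lift_field (ι → ℝ) hX
  have h2 : ∀ j, ContMDiff (𝓘(ℝ, ι → ℝ).prod (𝓡 n)) 𝓘(ℝ, ℝ) ∞
      (fun q : (ι → ℝ) × N => q.1 j) := fun j =>
    (ContinuousLinearMap.proj (R := ℝ) (φ := fun _ : ι => ℝ) j).contMDiff.comp contMDiff_fst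
  have h3 := ContMDiff.add_section h1 (ContMDiff.sum_section (s := Finset.univ)
    fun j _ => (h2 j).smul_section (lift_field (ι → ℝ) (hZ j)))
  have e : (fun q : (ι → ℝ) × N => (⟨q, ((0 : ι → ℝ), X q.2 + ∑ j, q.1 j • Z j q.2)⟩ :
        TangentBundle (𝓘(ℝ, ι → ℝ).prod (𝓡 n)) ((ι → ℝ) × N))) =
      fun q => ⟨q, ((0 : ι → ℝ), X q.2) + ∑ j, q.1 j • ((0 : ι → ℝ), Z j q.2)⟩ := by
    funext q
    congr 1
    refine Prod.ext ?_ ?_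
    · show (0 : ι → ℝ) = ((0 : ι → ℝ), (X q.2 : EuclideanSpace ℝ (Fin n))).1 +
        (∑ j, q.1 j • ((0 : ι → ℝ), (Z j q.2 : EuclideanSpace ℝ (Fin n)))).1
      rw [Prod.fst_sum]
      simp
    · show (X q.2 + ∑ j, q.1 j • Z j q.2 : EuclideanSpace ℝ (Fin n)) =
        ((0 : ι → ℝ), (X q.2 : EuclideanSpace ℝ (Fin n))).2 +
        (∑ j, q.1 j • ((0 : ι → ℝ), (Z j q.2 : EuclideanSpace ℝ (Fin n)))).2
      rw [Prod.snd_sum]
      simp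
  rw [e]
  exact h3

theorem smulRight_prod {A B : Type*} [NormedAddCommGroup A] [NormedSpace ℝ A]
    [NormedAddCommGroup B] [NormedSpace ℝ B] (w : B) :
    (1 : ℝ →L[ℝ] ℝ).smulRight ((0 : A), w) =
      (0 : ℝ →L[ℝ] A).prod ((1 : ℝ →L[ℝ] ℝ).smulRight w) := by
  ext <;> simp

theorem exists_param_flow [T2Space N] [CompactSpace N] {X : Field n N} {Z : ι → Field n N}
    (hX : IsC ⊤ X) (hZ : ∀ j, IsC ⊤ (Z j)) :
    ∃ Φ : (ι → ℝ) → ℝ → N → N,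
      (∀ a, IsFlowOf (Φ a) (fun x => X x + ∑ j, a j • Z j x)) ∧
      ContMDiff ((𝓘(ℝ, ι → ℝ).prod (𝓡 n)).prod 𝓘(ℝ, ℝ)) (𝓡 n) ∞
        (fun p : ((ι → ℝ) × N) × ℝ => Φ p.1.1 p.2 p.1.2) := by
  have i1 : IsManifold (𝓡 n) 1 N := IsManifold.of_le (n := ∞) (by simp)
  have hY : ∀ a : ι → ℝ, ContMDiff (𝓡 n) (𝓡 n).tangent ∞
      (fun x => (⟨x, X x + ∑ j, a j • Z j x⟩ : TangentBundle (𝓡 n) N)) := fun a =>
    ContMDiff.add_section (hX : ContMDiff (𝓡 n) (𝓡 n).tangent ∞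
        (fun x => (⟨x, X x⟩ : TangentBundle (𝓡 n) N)))
      (ContMDiff.sum_section (s := Finset.univ) fun j _ =>
        ContMDiff.const_smul_section (a := a j) (hZ j : ContMDiff (𝓡 n) (𝓡 n).tangent ∞
        (fun x => (⟨x, Z j x⟩ : TangentBundle (𝓡 n) N))))
  choose Φ hΦ hΦY using fun a => flowOn_of ((hY a).of_le (m := 1) (by simp))
  refine ⟨Φ, fun a => ⟨hΦ a, hΦY a⟩, ?_⟩
  have h1 := Pool.Agent.Helper186.contMDiff_flow (par_field hX hZ)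
    (Fl := fun q t => (q.1, Φ q.1 t q.2)) (fun q => by simp [(hΦ q.1).zero]) (fun q => by
      intro t
      have h2 : HasMFDerivAt 𝓘(ℝ, ℝ) 𝓘(ℝ, ι → ℝ) (fun _ : ℝ => q.1) t
          (0 : ℝ →L[ℝ] (ι → ℝ)) := hasMFDerivAt_const q.1 t
      have h3 := h2.prodMk (hΦY q.1 q.2 t)
      refine (congrArg (HasMFDerivAt 𝓘(ℝ, ℝ) (𝓘(ℝ, ι → ℝ).prod (𝓡 n))
        (fun t => (q.1, Φ q.1 t q.2)) t) ?_).mpr h3
      exact smulRight_prod (A := ι → ℝ) (B := EuclideanSpace ℝ (Fin n)) _)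
  exact contMDiff_snd.comp h1

end Pool.Agent.U882.MF
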