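import Pool.Agent.U882.MF.Nd
import Pool.Agent.U882.MF.Par
import Pool.Agent.N15.AS.Dyn

/-! Time maps of the flows of the fields `A h` are limits of Axiom A diffeomorphisms. -/

set_option autoImplicit false

open scoped Manifold ContDiff Topology Bundle
open Set Filter

universe u

namespace Pool.Agent.U882.MF

open Pool.Agent.U1.VF
open Pool.Agent.H718R2.G Pool.Agent.TH80.OMS Pool.Agent.Y504.CO Pool.Agent.Y318.MN

variable {n : ℕ} {N : Type u} [TopologicalSpace N] [T2Space N]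
  [ChartedSpace (EuclideanSpace ℝ (Fin n)) N] [IsManifold (𝓡 n) ∞ N]

theorem flow_unique {Y : Field n N} (hY : IsC 1 Y) {φ ψ : ℝ → N → N} (hφ : IsFlowOf φ Y)
    (hψ : IsFlowOf ψ Y) (t : ℝ) (x : N) : φ t x = ψ t x := by
  have i1 : IsManifold (𝓡 n) 1 N := IsManifold.of_le (n := ∞) (by simp)
  have h1 : (fun t => φ t x) = fun t => ψ t x :=
    isMIntegralCurve_Ioo_eq_of_contMDiff_boundaryless (t₀ := 0) (hY : ContMDiff (𝓡 n)
      (𝓡 n).tangent ((1 : ℕ∞) : ℕ∞ω) (fun x => (⟨x, Y x⟩ : TangentBundle (𝓡 n) N)))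
      (hφ.2 x) (hψ.2 x) (by simp [hφ.1.zero, hψ.1.zero])
  exact congrFun h1 t

/-- `F` is a composition of time maps `φ τ`, `τ ≥ 0`, of flows `φ` of fields `A h`: the operator
`A` may be different in each factor, the function `h` is the same. -/
inductive FlowProduct (n : ℕ) {N : Type u} [TopologicalSpace N]
    [ChartedSpace (EuclideanSpace ℝ (Fin n)) N] [IsManifold (𝓡 n) ∞ N] (h : N → ℝ) :
    (N → N) → Prop
  | id : FlowProduct n h (fun x => x)
  | step (F : N → N) (B : DissOp n N ⊤) (φ : ℝ → N → N) (τ : ℝ) : FlowProduct n h F →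
      IsFlowOf φ (B.A h) → 0 ≤ τ → FlowProduct n h (fun x => φ τ (F x))

theorem family [CompactSpace N] {h : N → ℝ} (hh : Smooth n h) {ι : Type} [Fintype ι]
    {f : ι → N → ℝ} (hf : ∀ j, Smooth n (f j)) {F : N → N} (hF : FlowProduct n h F) :
    ∃ Ψ Ψ' : (ι → ℝ) → N → N,
      ContMDiff (𝓘(ℝ, ι → ℝ).prod (𝓡 n)) (𝓡 n) ∞ (fun q : (ι → ℝ) × N => Ψ q.1 q.2) ∧
      ContMDiff (𝓘(ℝ, ι → ℝ).prod (𝓡 n)) (𝓡 n) ∞ (fun q : (ι → ℝ) × N => Ψ' q.1 q.2) ∧
      (∀ a x, Ψ' a (Ψ a x) = x) ∧ (∀ a x, Ψ a (Ψ' a x) = x) ∧ (∀ x, Ψ 0 x = F x) ∧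
      ∀ a x, h x + ∑ j, a j * f j x ≤ h (Ψ a x) + ∑ j, a j * f j (Ψ a x) := by
  induction hF with
  | id =>
    exact ⟨fun _ x => x, fun _ x => x, contMDiff_snd, contMDiff_snd, fun _ _ => rfl,
      fun _ _ => rfl, fun _ => rfl, fun _ _ => le_rfl⟩
  | step F B φ τ _ hφ hτ ih =>
    obtain ⟨Ψ, Ψ', h1, h2, h3, h4, h5, h6⟩ := ih
    obtain ⟨Φ, hΦ, hΦs⟩ := exists_param_flow (B.smooth h hh) (fun j => B.smooth (f j) (hf j))
    have hinv : ∀ (a : ι → ℝ) (s t : ℝ) (x : N), s + t = 0 → Φ a s (Φ a t x) = x := by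
      intro a s t x hst
      rw [← (hΦ a).1.add, hst, (hΦ a).1.zero]
    refine ⟨fun a x => Φ a τ (Ψ a x), fun a x => Ψ' a (Φ a (-τ) x), ?_, ?_, ?_, ?_, ?_, ?_⟩
    · exact hΦs.comp ((contMDiff_fst.prodMk h1).prodMk contMDiff_const :
        ContMDiff (𝓘(ℝ, ι → ℝ).prod (𝓡 n)) ((𝓘(ℝ, ι → ℝ).prod (𝓡 n)).prod 𝓘(ℝ, ℝ)) ∞
          fun q : (ι → ℝ) × N => ((q.1, Ψ q.1 q.2), τ))
    · have h7 : ContMDiff (𝓘(ℝ, ι → ℝ).prod (𝓡 n)) (𝓡 n) ∞
          (fun q : (ι → ℝ) × N => Φ q.1 (-τ) q.2) :=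
        hΦs.comp (contMDiff_id.prodMk contMDiff_const :
          ContMDiff (𝓘(ℝ, ι → ℝ).prod (𝓡 n)) ((𝓘(ℝ, ι → ℝ).prod (𝓡 n)).prod 𝓘(ℝ, ℝ)) ∞
            fun q : (ι → ℝ) × N => (q, -τ))
      exact h2.comp (contMDiff_fst.prodMk h7)
    · intro a x
      show Ψ' a (Φ a (-τ) (Φ a τ (Ψ a x))) = x
      rw [hinv a _ _ _ (by ring), h3]
    · intro a x
      show Φ a τ (Ψ a (Ψ' a (Φ a (-τ) x))) = x
      rw [h4, hinv a _ _ _ (by ring)]
    · intro x
      have e : (fun x => B.A h x + ∑ j, (0 : ι → ℝ) j • B.A (f j) x) = B.A h := by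
        funext x
        show B.A h x + ∑ j, (0 : ℝ) • _ = _
        simp
      have h7 := hΦ 0
      rw [e] at h7
      show Φ 0 τ (Ψ 0 x) = φ τ (F x)
      rw [h5]
      exact flow_unique ((B.smooth h hh).of_le (by simp)) h7 hφ τ _
    · intro a x
      refine (h6 a x).trans ?_
      have hsm := smooth_comb hh hf a
      have h7 := monotone_along hsm (Y := fun x => B.A h x + ∑ j, a j • B.A (f j) x)
        (fun x => by
          rw [← op_comb B hh hf a x]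
          exact B.nonneg _ hsm x) ((hΦ a).2 (Ψ a x)) hτ
      simp only [(hΦ a).1.zero] at h7
      exact h7

theorem main [CompactSpace N] {h : N → ℝ} (hh : Smooth n h) {r : ℕ∞} (hr : 1 ≤ r)
    (F : DiffM n N r) (hF : FlowProduct n h F) (U : Set (DiffM n N r))
    (hU : IsOpen[strongTop n N r] U) (hFU : F ∈ U) :
    ∃ G ∈ U, FiniteNoCycle G ∧ ∀ p ∈ Omega G, IsHyperbolicPer n G p := by
  obtain ⟨ι, _, f, hf, hD⟩ := exists_morse n N
  obtain ⟨D, hDo, hDd, hDn⟩ := hD h hh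
  obtain ⟨Ψ, Ψ', h1, h2, h3, h4, h5, h6⟩ := family hh hf hF
  have hrle : (r : ℕ∞ω) ≤ ∞ := by exact_mod_cast le_top
  let H : (ι → ℝ) → DiffM n N r := fun a =>
    { toFun := Ψ a
      invFun := Ψ' a
      left_inv := h3 a
      right_inv := h4 a
      contMDiff_toFun := (h1.comp (contMDiff_const.prodMk contMDiff_id :
        ContMDiff (𝓡 n) (𝓘(ℝ, ι → ℝ).prod (𝓡 n)) ∞ fun x : N => (a, x))).of_le hrle
      contMDiff_invFun := (h2.comp (contMDiff_const.prodMk contMDiff_id :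
        ContMDiff (𝓡 n) (𝓘(ℝ, ι → ℝ).prod (𝓡 n)) ∞ fun x : N => (a, x))).of_le hrle }
  have hHa : ∀ a x, H a x = Ψ a x := fun a x => rfl
  have hfam : Pool.Agent.W564.SC.IsFam n N r H := fun y => (h1.of_le hrle) _
  have hH0 : H 0 = F := by
    ext x
    rw [hHa, h5]
  obtain ⟨κ, hκ, hκU⟩ := Pool.Agent.N15.AS.near hr H hfam U hU (by rw [hH0]; exact hFU)
  obtain ⟨a, haκ, haD⟩ := hDd.inter_open_nonempty (Metric.ball 0 κ) Metric.isOpen_ball
    ⟨0, Metric.mem_ball_self hκ⟩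
  have haU : H a ∈ U := hκU a (by simpa using haκ)
  obtain ⟨G, hG, h7, h8, -⟩ := Pool.Agent.Results.MP_4fd132_an.MonotoneMorse.result n N r hr (H a)
    (fun x => h x + ∑ j, a j * f j x) (smooth_comb hh hf a) (fun x => h6 a x)
    (fun z hz => hDn a haD z (hz 0).1) U hU haU
  exact ⟨G, hG, h7, h8⟩

/-- The `C^r` diffeomorphisms which are compositions of time maps `φ τ`, `τ ≥ 0`, of flows of fields
`A h` with one and the same smooth function `h`. -/
def FlowProducts (n : ℕ) (N : Type u) [TopologicalSpace N]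
    [ChartedSpace (EuclideanSpace ℝ (Fin n)) N] [IsManifold (𝓡 n) ∞ N] (r : ℕ∞) :
    Set (DiffM n N r) :=
  {F | ∃ h : N → ℝ, Smooth n h ∧ FlowProduct n h F}

/-- The `C^r` diffeomorphisms whose nonwandering set is finite and consists of hyperbolic periodic
points, and which have no cycles. -/
def FiniteAxiomA (n : ℕ) (N : Type u) [TopologicalSpace N]
    [ChartedSpace (EuclideanSpace ℝ (Fin n)) N] (r : ℕ∞) : Set (DiffM n N r) :=
  {G | FiniteNoCycle G ∧ ∀ p ∈ Omega G, IsHyperbolicPer n G p}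

theorem closures (n : ℕ) (N : Type u) [TopologicalSpace N] [T2Space N] [CompactSpace N]
    [ChartedSpace (EuclideanSpace ℝ (Fin n)) N] [IsManifold (𝓡 n) ∞ N] (r : ℕ∞) (hr : 1 ≤ r) :
    closure[strongTop n N r] (FlowProducts n N r) ⊆
      closure[strongTop n N r] (FiniteAxiomA n N r) := by
  letI : TopologicalSpace (DiffM n N r) := strongTop n N r
  refine closure_minimal ?_ isClosed_closure
  rintro F ⟨h, hh, hF⟩
  refine mem_closure_iff.2 fun U hU hFU => ?_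
  obtain ⟨G, hG, h1, h2⟩ := main hh hr F hF U hU hFU
  exact ⟨G, hG, h1, h2⟩

end Pool.Agent.U882.MF
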