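import Pool.Agent.U882.MF.Main

/-! Products of flows and of the elements of a finite group which acts freely. -/

set_option autoImplicit false

open scoped Manifold ContDiff Topology Bundle
open Set Filter

universe u

namespace Pool.Agent.U882.MF

open Pool.Agent.U1.VF
open Pool.Agent.H718R2.G Pool.Agent.TH80.OMS Pool.Agent.Y504.CO Pool.Agent.Y318.MN

variable {n : ℕ} {N : Type u} [TopologicalSpace N]
  [ChartedSpace (EuclideanSpace ℝ (Fin n)) N] [IsManifold (𝓡 n) ∞ N]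

/-- `act` is a free smooth action of the group `Γ` on `N`. -/
structure FreeAct (n : ℕ) {N : Type u} [TopologicalSpace N]
    [ChartedSpace (EuclideanSpace ℝ (Fin n)) N] {Γ : Type} [Group Γ] (act : Γ → N → N) :
    Prop where
  one : ∀ x, act 1 x = x
  mul : ∀ g k x, act (g * k) x = act g (act k x)
  smooth : ∀ g, ContMDiff (𝓡 n) (𝓡 n) ∞ (act g)
  free : ∀ g x, act g x = x → g = 1

variable [T2Space N]

/-- **Density of invariant Morse functions for free actions.** -/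
theorem exists_morse_sym [CompactSpace N] {Γ : Type} [Group Γ] [Fintype Γ] {act : Γ → N → N}
    (hA : FreeAct n act) :
    ∃ (ι : Type) (_ : Fintype ι) (f : ι → N → ℝ), (∀ j, ContMDiff (𝓡 n) 𝓘(ℝ, ℝ) ∞ (f j)) ∧
      (∀ j g x, f j (act g x) = f j x) ∧
      ∀ h : N → ℝ, ContMDiff (𝓡 n) 𝓘(ℝ, ℝ) ∞ h → ∃ D : Set (ι → ℝ), IsOpen D ∧ Dense D ∧
        ∀ a ∈ D, ∀ x, Crit n (fun x => h x + ∑ j, a j * f j x) x →
          Nondeg n (fun x => h x + ∑ j, a j * f j x) x := by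
  classical
  have hloc : ∀ c : N, ∃ (b : SmoothBumpFunction (𝓡 n) c) (K : Set N), IsCompact K ∧ K ∈ 𝓝 c ∧
      K ⊆ interior {y | b y = 1} ∩ (chartAt (EuclideanSpace ℝ (Fin n)) c).source ∧
      ∀ g : Γ, g ≠ 1 → ∀ y, b y ≠ 0 → b (act g y) = 0 := by
    intro c
    have hW1 : ∀ g : Γ, ∃ W ∈ 𝓝 c, g ≠ 1 → ∀ y ∈ W, act g y ∉ W := by
      intro g
      by_cases hg : g = 1
      · exact ⟨univ, univ_mem, fun h => absurd hg h⟩
      · have h1 : c ≠ act g c := fun h => hg (hA.free g c h.symm)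
        obtain ⟨S, T, hS, hT, hcS, hcT, hST⟩ := t2_separation h1
        refine ⟨S ∩ act g ⁻¹' T, inter_mem (hS.mem_nhds hcS)
          ((hA.smooth g).continuous.continuousAt.preimage_mem_nhds (hT.mem_nhds hcT)),
          fun _ y hy hy' => ?_⟩
        exact Set.disjoint_left.1 hST hy'.1 hy.2
    choose W hW hW2 using hW1
    obtain ⟨b, -, hb⟩ := (SmoothBumpFunction.nhds_basis_tsupport (I := 𝓡 n) c).mem_iff.1
      (Filter.iInter_mem.2 hW)
    have hb2 : ∀ g : Γ, g ≠ 1 → ∀ y, b y ≠ 0 → b (act g y) = 0 := by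
      intro g hg y hy
      by_contra hne
      exact hW2 g hg y (mem_iInter.1 (hb (subset_tsupport _ hy)) g)
        (mem_iInter.1 (hb (subset_tsupport _ hne)) g)
    have h1 : interior {y | b y = 1} ∩ (chartAt (EuclideanSpace ℝ (Fin n)) c).source ∈ 𝓝 c := by
      refine inter_mem ?_ ((chartAt (EuclideanSpace ℝ (Fin n)) c).open_source.mem_nhds (mem_chart_source (EuclideanSpace ℝ (Fin n)) c))
      exact interior_mem_nhds.2 b.eventuallyEq_one
    obtain ⟨K, hK1, hK2, hK3⟩ := local_compact_nhds h1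
    exact ⟨b, K, hK3, hK1, hK2, hb2⟩
  choose b K hKc hKn hKs hbz using hloc
  obtain ⟨t, ht⟩ := CompactSpace.elim_nhds_subcover K hKn
  let ctr : Fin t.card → N := fun l => (t.equivFin.symm l : N)
  let f0 : Fin t.card × Fin n → N → ℝ := fun j y =>
    b (ctr j.1) y * (extChartAt (𝓡 n) (ctr j.1) y) j.2
  have hf0 : ∀ j, ContMDiff (𝓡 n) 𝓘(ℝ, ℝ) ∞ (f0 j) := by
    intro j
    have h1 : ContMDiffOn (𝓡 n) 𝓘(ℝ, ℝ) ∞ (fun y => (extChartAt (𝓡 n) (ctr j.1) y) j.2)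
        (chartAt (EuclideanSpace ℝ (Fin n)) (ctr j.1)).source :=
      (EuclideanSpace.proj j.2 : (EuclideanSpace ℝ (Fin n)) →L[ℝ] ℝ).contMDiff.comp_contMDiffOn contMDiffOn_extChartAt
    exact (b (ctr j.1)).contMDiff_smul h1
  let f : Fin t.card × Fin n → N → ℝ := fun j y => ∑ g : Γ, f0 j (act g y)
  have hf : ∀ j, ContMDiff (𝓡 n) 𝓘(ℝ, ℝ) ∞ (f j) := fun j =>
    contMDiff_finsetSum fun g _ => (hf0 j).comp (hA.smooth g)
  have hfinv : ∀ j g x, f j (act g x) = f j x := by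
    intro j g x
    show ∑ k : Γ, f0 j (act k (act g x)) = ∑ k : Γ, f0 j (act k x)
    rw [← Equiv.sum_comp (Equiv.mulRight g) fun k => f0 j (act k x)]
    refine Finset.sum_congr rfl fun k _ => ?_
    rw [← hA.mul]
    rfl
  refine ⟨Fin t.card × Fin n, inferInstance, f, hf, hfinv, fun h hh => ?_⟩
  let u : Fin t.card → (EuclideanSpace ℝ (Fin n)) → ℝ := fun l v => h ((extChartAt (𝓡 n) (ctr l)).symm v)
  let w : Fin t.card → Fin t.card × Fin n → (EuclideanSpace ℝ (Fin n)) → ℝ := fun l j v =>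
    f j ((extChartAt (𝓡 n) (ctr l)).symm v)
  let K' : Fin t.card → Set (EuclideanSpace ℝ (Fin n)) := fun l => extChartAt (𝓡 n) (ctr l) '' K (ctr l)
  have hT : ∀ l, IsOpen (extChartAt (𝓡 n) (ctr l)).target := fun l => isOpen_extChartAt_target _
  have hu : ∀ l, ContDiffOn ℝ ∞ (u l) (extChartAt (𝓡 n) (ctr l)).target := fun l => cd_loc hh _
  have hw : ∀ l j, ContDiffOn ℝ ∞ (w l j) (extChartAt (𝓡 n) (ctr l)).target :=
    fun l j => cd_loc (hf j) _
  have hKsrc : ∀ c : N, K c ⊆ (extChartAt (𝓡 n) c).source := fun c y hy => by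
    rw [extChartAt_source]
    exact (hKs c hy).2
  have hK'T : ∀ l, K' l ⊆ (extChartAt (𝓡 n) (ctr l)).target := by
    rintro l _ ⟨y, hy, rfl⟩
    exact (extChartAt (𝓡 n) (ctr l)).map_source (hKsrc _ hy)
  have hK'c : ∀ l, IsCompact (K' l) := fun l =>
    (hKc _).image_of_continuousOn ((continuousOn_extChartAt _).mono (hKsrc _))
  have he : ∀ l i, ∀ v ∈ K' l, w l (l, i) =ᶠ[𝓝 v] fun v => v i := by
    rintro l i _ ⟨y, hy, rfl⟩
    have h1 : ContinuousAt (extChartAt (𝓡 n) (ctr l)).symm (extChartAt (𝓡 n) (ctr l) y) :=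
      continuousAt_extChartAt_symm'' (hK'T l ⟨y, hy, rfl⟩)
    have h2 : (extChartAt (𝓡 n) (ctr l)).symm (extChartAt (𝓡 n) (ctr l) y) = y :=
      (extChartAt (𝓡 n) (ctr l)).left_inv (hKsrc _ hy)
    have h3 : interior {y | b (ctr l) y = 1} ∈
        𝓝 ((extChartAt (𝓡 n) (ctr l)).symm (extChartAt (𝓡 n) (ctr l) y)) := by
      rw [h2]
      exact isOpen_interior.mem_nhds (hKs _ hy).1
    filter_upwards [h1 h3, (hT l).mem_nhds (hK'T l ⟨y, hy, rfl⟩)] with v hv1 hv2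
    have h4' : (extChartAt (𝓡 n) (ctr l)).symm v ∈ {y | b (ctr l) y = 1} := interior_subset hv1
    have h4 : b (ctr l) ((extChartAt (𝓡 n) (ctr l)).symm v) = 1 := h4'
    show ∑ g : Γ, b (ctr l) (act g ((extChartAt (𝓡 n) (ctr l)).symm v)) *
      (extChartAt (𝓡 n) (ctr l) (act g ((extChartAt (𝓡 n) (ctr l)).symm v))) i = v i
    rw [Finset.sum_eq_single (1 : Γ) (fun g _ hg => by
        rw [hbz (ctr l) g hg _ (by rw [h4]; exact one_ne_zero), zero_mul])
      (fun h => absurd (Finset.mem_univ _) h), hA.one, h4, one_mul,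
      (extChartAt (𝓡 n) (ctr l)).right_inv hv2]
  have ho : ∀ l, IsOpen (Good (u l) (w l) (K' l)) := fun l =>
    good_open (hT l) (hu l) (hw l) (hK'c l) (hK'T l)
  refine ⟨⋂ l, Good (u l) (w l) (K' l), isOpen_iInter_of_finite ho,
    dense_iInter_of_isOpen ho fun l => good_dense (hT l) (hu l) (hw l) (hK'T l)
      (fun i => (l, i)) (he l), fun a ha => ?_⟩
  intro x hx
  have hx2 : x ∈ ⋃ c ∈ t, K c := by rw [ht]; trivial
  obtain ⟨c, hc, hxc⟩ := mem_iUnion₂.1 hx2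
  obtain ⟨l, rfl⟩ : ∃ l, ctr l = c := ⟨t.equivFin ⟨c, hc⟩, by simp [ctr]⟩
  have hv : extChartAt (𝓡 n) (ctr l) x ∈ K' l := ⟨x, hxc, rfl⟩
  have hFF : FF (u l) (w l) a (extChartAt (𝓡 n) (ctr l) x) = 0 :=
    FF_of_crit hh hf a (ctr l) (hKs _ hxc).2 hx
  have hdet : (FF' (u l) (w l) a (extChartAt (𝓡 n) (ctr l) x)).det ≠ 0 := fun h0 =>
    (mem_iInter.1 ha l) _ hv ⟨hFF, h0⟩
  refine nondeg_of_chart (smooth_comb hh hf a) hx
    (χ := chartAt (EuclideanSpace ℝ (Fin n)) (ctr l))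
    (IsManifold.chart_mem_maximalAtlas (ctr l)) (hKs _ hxc).2 fun y hy => ?_
  have h1 : FF' (u l) (w l) a (extChartAt (𝓡 n) (ctr l) x) y = 0 := by
    refine ext_inner_right ℝ fun z => ?_
    rw [← hess (hT l) (hu l) (hw l) a (hK'T l hv) y z, inner_zero_left]
    exact congrArg (fun L : (EuclideanSpace ℝ (Fin n)) →L[ℝ] ℝ => L z) hy
  have h2 := ((FF' (u l) (w l) a (extChartAt (𝓡 n) (ctr l) x)).toContinuousLinearEquivOfDetNeZero
    hdet).injective
  exact h2 (by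
    show FF' (u l) (w l) a (extChartAt (𝓡 n) (ctr l) x) y =
      FF' (u l) (w l) a (extChartAt (𝓡 n) (ctr l) x) 0
    rw [h1, map_zero])

/-- `F` is a composition of elements of the group (acting by `act`) and of time maps `φ τ`, `τ ≥ 0`,
of flows `φ` of fields `A h`: the operator `A` may be different in each factor, the function `h` is
the same. -/
inductive SymProduct (n : ℕ) {N : Type u} [TopologicalSpace N]
    [ChartedSpace (EuclideanSpace ℝ (Fin n)) N] [IsManifold (𝓡 n) ∞ N] {Γ : Type}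
    (act : Γ → N → N) (h : N → ℝ) : (N → N) → Prop
  | id : SymProduct n act h (fun x => x)
  | flow (F : N → N) (B : DissOp n N ⊤) (φ : ℝ → N → N) (τ : ℝ) : SymProduct n act h F →
      IsFlowOf φ (B.A h) → 0 ≤ τ → SymProduct n act h (fun x => φ τ (F x))
  | sym (F : N → N) (g : Γ) : SymProduct n act h F → SymProduct n act h (fun x => act g (F x))

theorem family_sym [CompactSpace N] {Γ : Type} [Group Γ] {act : Γ → N → N}
    (hA : FreeAct n act) {h : N → ℝ} (hh : Smooth n h)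
    (hinv : ∀ g x, h (act g x) = h x) {ι : Type} [Fintype ι]
    {f : ι → N → ℝ} (hf : ∀ j, Smooth n (f j)) (hfinv : ∀ j g x, f j (act g x) = f j x)
    {F : N → N} (hF : SymProduct n act h F) :
    ∃ Ψ Ψ' : (ι → ℝ) → N → N,
      ContMDiff (𝓘(ℝ, ι → ℝ).prod (𝓡 n)) (𝓡 n) ∞ (fun q : (ι → ℝ) × N => Ψ q.1 q.2) ∧
      ContMDiff (𝓘(ℝ, ι → ℝ).prod (𝓡 n)) (𝓡 n) ∞ (fun q : (ι → ℝ) × N => Ψ' q.1 q.2) ∧
      (∀ a x, Ψ' a (Ψ a x) = x) ∧ (∀ a x, Ψ a (Ψ' a x) = x) ∧ (∀ x, Ψ 0 x = F x) ∧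
      ∀ a x, h x + ∑ j, a j * f j x ≤ h (Ψ a x) + ∑ j, a j * f j (Ψ a x) := by
  induction hF with
  | id =>
    exact ⟨fun _ x => x, fun _ x => x, contMDiff_snd, contMDiff_snd, fun _ _ => rfl,
      fun _ _ => rfl, fun _ => rfl, fun _ _ => le_rfl⟩
  | flow F B φ τ _ hφ hτ ih =>
    obtain ⟨Ψ, Ψ', h1, h2, h3, h4, h5, h6⟩ := ih
    obtain ⟨Θ, Θ', k1, k2, k3, k4, k5, k6⟩ := family hh hf
      (FlowProduct.step (fun x => x) B φ τ FlowProduct.id hφ hτ)
    refine ⟨fun a x => Θ a (Ψ a x), fun a x => Ψ' a (Θ' a x), ?_, ?_, ?_, ?_, ?_, ?_⟩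
    · exact k1.comp (contMDiff_fst.prodMk h1)
    · exact h2.comp (contMDiff_fst.prodMk k2)
    · intro a x
      show Ψ' a (Θ' a (Θ a (Ψ a x))) = x
      rw [k3, h3]
    · intro a x
      show Θ a (Ψ a (Ψ' a (Θ' a x))) = x
      rw [h4, k4]
    · intro x
      show Θ 0 (Ψ 0 x) = φ τ (F x)
      rw [k5, h5]
    · intro a x
      exact (h6 a x).trans (k6 a (Ψ a x))
  | sym F g _ ih =>
    obtain ⟨Ψ, Ψ', h1, h2, h3, h4, h5, h6⟩ := ih
    refine ⟨fun a x => act g (Ψ a x), fun a x => Ψ' a (act g⁻¹ x), ?_, ?_, ?_, ?_, ?_, ?_⟩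
    · exact (hA.smooth g).comp h1
    · exact h2.comp (contMDiff_fst.prodMk ((hA.smooth g⁻¹).comp contMDiff_snd))
    · intro a x
      show Ψ' a (act g⁻¹ (act g (Ψ a x))) = x
      rw [← hA.mul, inv_mul_cancel, hA.one, h3]
    · intro a x
      show act g (Ψ a (Ψ' a (act g⁻¹ x))) = x
      rw [h4, ← hA.mul, mul_inv_cancel, hA.one]
    · intro x
      show act g (Ψ 0 x) = act g (F x)
      rw [h5]
    · intro a x
      show _ ≤ h (act g (Ψ a x)) + ∑ j, a j * f j (act g (Ψ a x))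
      rw [hinv]
      simp only [hfinv]
      exact h6 a x

theorem main_sym [CompactSpace N] {Γ : Type} [Group Γ] [Fintype Γ] {act : Γ → N → N}
    (hA : FreeAct n act) {h : N → ℝ} (hh : Smooth n h) (hinv : ∀ g x, h (act g x) = h x)
    {r : ℕ∞} (hr : 1 ≤ r) (F : DiffM n N r) (hF : SymProduct n act h F)
    (U : Set (DiffM n N r)) (hU : IsOpen[strongTop n N r] U) (hFU : F ∈ U) :
    ∃ G ∈ U, FiniteNoCycle G ∧ ∀ p ∈ Omega G, IsHyperbolicPer n G p := by
  obtain ⟨ι, _, f, hf, hfinv, hD⟩ := exists_morse_sym hA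
  obtain ⟨D, hDo, hDd, hDn⟩ := hD h hh
  obtain ⟨Ψ, Ψ', h1, h2, h3, h4, h5, h6⟩ := family_sym hA hh hinv hf hfinv hF
  have hrle : (r : ℕ∞ω) ≤ ∞ := by exact_mod_cast le_top
  let H : (ι → ℝ) → DiffM n N r := fun a =>
    { toFun := Ψ a
      invFun := Ψ' a
      left_inv := h3 a
      right_inv := h4 a
      contMDiff_toFun := (h1.comp (contMDiff_const.prodMk contMDiff_id :
        ContMDiff (𝓡 n) (𝓘(ℝ, ι → ℝ).prod (𝓡 n)) ∞ fun x : N => (a, x))).of_le hrle
      contMDiff_invFun := (h2.comp (contMDiff_const.prodMk contMDiff_id :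
        ContMDiff (𝓡 n) (𝓘(ℝ, ι → ℝ).prod (𝓡 n)) ∞ fun x : N => (a, x))).of_le hrle }
  have hHa : ∀ a x, H a x = Ψ a x := fun a x => rfl
  have hfam : Pool.Agent.W564.SC.IsFam n N r H := fun y => (h1.of_le hrle) _
  have hH0 : H 0 = F := by
    ext x
    rw [hHa, h5]
  obtain ⟨κ, hκ, hκU⟩ := Pool.Agent.N15.AS.near hr H hfam U hU (by rw [hH0]; exact hFU)
  obtain ⟨a, haκ, haD⟩ := hDd.inter_open_nonempty (Metric.ball 0 κ) Metric.isOpen_ball
    ⟨0, Metric.mem_ball_self hκ⟩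
  have haU : H a ∈ U := hκU a (by simpa using haκ)
  obtain ⟨G, hG, h7, h8, -⟩ := Pool.Agent.Results.MP_4fd132_an.MonotoneMorse.result n N r hr (H a)
    (fun x => h x + ∑ j, a j * f j x) (smooth_comb hh hf a) (fun x => h6 a x)
    (fun z hz => hDn a haD z (hz 0).1) U hU haU
  exact ⟨G, hG, h7, h8⟩

/-- The `C^r` diffeomorphisms which are compositions of elements of a finite group acting smoothly and
freely on `N`, and of time maps `φ τ`, `τ ≥ 0`, of flows of fields `A h`, where `h` is one smooth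
function invariant under the group. -/
def SymProducts (n : ℕ) (N : Type u) [TopologicalSpace N]
    [ChartedSpace (EuclideanSpace ℝ (Fin n)) N] [IsManifold (𝓡 n) ∞ N] (r : ℕ∞) :
    Set (DiffM n N r) :=
  {F | ∃ (Γ : Type) (_ : Group Γ) (_ : Fintype Γ) (act : Γ → N → N) (h : N → ℝ),
    FreeAct n act ∧ Smooth n h ∧ (∀ g x, h (act g x) = h x) ∧ SymProduct n act h F}

theorem closures_sym (n : ℕ) (N : Type u) [TopologicalSpace N] [T2Space N] [CompactSpace N]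
    [ChartedSpace (EuclideanSpace ℝ (Fin n)) N] [IsManifold (𝓡 n) ∞ N] (r : ℕ∞) (hr : 1 ≤ r) :
    closure[strongTop n N r] (SymProducts n N r) ⊆
      closure[strongTop n N r] (FiniteAxiomA n N r) := by
  let _ : TopologicalSpace (DiffM n N r) := strongTop n N r
  refine closure_minimal ?_ isClosed_closure
  rintro F ⟨Γ, _, _, act, h, hA, hh, hinv, hF⟩
  refine mem_closure_iff.2 fun U hU hFU => ?_
  obtain ⟨G, hG, h1, h2⟩ := main_sym hA hh hinv hr F hF U hU hFU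
  exact ⟨G, hG, h1, h2⟩

end Pool.Agent.U882.MF
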